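import Pool.Agent.H41.GPerc3

set_option autoImplicit false

namespace Pool.Agent.Results.MP_da416c_pr.One

/-- Every infinite countable group has percolation threshold exactly `1`. -/
theorem result (Γ : Type) [Group Γ] [Countable Γ] [Infinite Γ] :
    Pool.Agent.H41.GPerc.lamGroup Γ = 1 :=
  Pool.Agent.H41.GPerc.main Γ

end Pool.Agent.Results.MP_da416c_pr.One
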